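import Pool.Agent.Helper42.FR.Stmts

/-!
# Row GR: growth of the defects of the commutators
-/

set_option autoImplicit false

namespace Pool.Agent.Helper44.FR

open Matrix Pool.Agent.Helper42.FR

universe u

variable {F : Type u} [Field F] {b : ℕ}

theorem AE_mono {c d : ℕ} {X Y : Matrix (Fin b) (Fin b) F} (h : AE c X Y) (hcd : c ≤ d) :
    AE d X Y := le_trans h hcd

theorem AE_eq {X Y : Matrix (Fin b) (Fin b) F} (h : X = Y) : AE 0 X Y := by
  unfold AE
  rw [h, sub_self, Matrix.rank_zero]

theorem AE_symm {d : ℕ} {X Y : Matrix (Fin b) (Fin b) F} (h : AE d X Y) : AE d Y X := by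
  unfold AE at h ⊢
  have e : Y - X = (X - Y) * (-1 : Matrix (Fin b) (Fin b) F) := by
    rw [mul_neg, mul_one, neg_sub]
  rw [e]
  exact (Matrix.rank_mul_le_left _ _).trans h

theorem AE_trans {c d : ℕ} {X Y Z : Matrix (Fin b) (Fin b) F} (h1 : AE c X Y)
    (h2 : AE d Y Z) : AE (c + d) X Z := by
  unfold AE at h1 h2 ⊢
  have e : X - Z = (X - Y) + (Y - Z) := by abel
  rw [e]
  exact (Pool.Agent.Helper81.Fmr.rank_add_le' _ _).trans (add_le_add h1 h2)

theorem AE_left {d : ℕ} {X Y : Matrix (Fin b) (Fin b) F} (A : Matrix (Fin b) (Fin b) F)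
    (h : AE d X Y) : AE d (A * X) (A * Y) := by
  unfold AE at h ⊢
  rw [← mul_sub]
  exact (Matrix.rank_mul_le_right _ _).trans h

theorem AE_right {d : ℕ} {X Y : Matrix (Fin b) (Fin b) F} (A : Matrix (Fin b) (Fin b) F)
    (h : AE d X Y) : AE d (X * A) (Y * A) := by
  unfold AE at h ⊢
  rw [← sub_mul]
  exact (Matrix.rank_mul_le_left _ _).trans h

/-- replace a factor in the middle -/
theorem AE_mid {d : ℕ} {X Y : Matrix (Fin b) (Fin b) F} (A B : Matrix (Fin b) (Fin b) F)
    (h : AE d X Y) : AE d (A * X * B) (A * Y * B) := AE_right B (AE_left A h)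

/-- the step for `t` -/
theorem step_t {c d : ℕ} {s s' t k x : Matrix (Fin b) (Fin b) F}
    (ss : AE d (s * s') 1) (ss' : AE d (s' * s) 1) (ts : AE d (t * s) (s * k * t))
    (ht : AE c (t * x) (x * t)) (hk : AE c (k * x) (x * k)) :
    AE (2 * c + 4 * d) (t * (s * x * s')) (s * x * s' * t) := by
  have a1 : AE d (t * (s * x * s')) (s * k * t * (x * s')) := by
    have h := AE_right (x * s') ts
    have e : t * (s * x * s') = t * s * (x * s') := by noncomm_ring
    rw [e]
    exact h
  have a2 : AE c (s * k * t * (x * s')) (s * k * (x * t) * s') := by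
    have h := AE_mid (s * k) s' ht
    have e : s * k * t * (x * s') = s * k * (t * x) * s' := by noncomm_ring
    rw [e]
    exact h
  have a3 : AE c (s * k * (x * t) * s') (s * (x * k) * (t * s')) := by
    have h := AE_mid s (t * s') hk
    have e : s * k * (x * t) * s' = s * (k * x) * (t * s') := by noncomm_ring
    rw [e]
    exact h
  -- `k t s' ≈ s' t`
  have b1 : AE d (s' * t) (s' * t * (s * s')) := by
    have h := AE_left (s' * t) (AE_symm ss)
    rw [mul_one] at h
    exact h
  have b2 : AE d (s' * t * (s * s')) (s' * (s * k * t) * s') := by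
    have h := AE_mid s' s' ts
    have e : s' * t * (s * s') = s' * (t * s) * s' := by noncomm_ring
    rw [e]
    exact h
  have b3 : AE d (s' * (s * k * t) * s') (k * t * s') := by
    have h := AE_right (k * t * s') ss'
    rw [one_mul] at h
    have e : s' * (s * k * t) * s' = s' * s * (k * t * s') := by noncomm_ring
    rw [e]
    exact h
  have b4 := AE_symm (AE_trans (AE_trans b1 b2) b3)
  have a4 : AE (d + d + d) (s * (x * k) * (t * s')) (s * x * s' * t) := by
    have h := AE_left (s * x) b4
    have e1 : s * (x * k) * (t * s') = s * x * (k * t * s') := by noncomm_ring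
    have e2 : s * x * s' * t = s * x * (s' * t) := by noncomm_ring
    rw [e1, e2]
    exact h
  exact AE_mono (AE_trans (AE_trans (AE_trans a1 a2) a3) a4) (by omega)

/-- the step for an element that commutes with `s t` -/
theorem step_y {c d : ℕ} {s s' t t' y x : Matrix (Fin b) (Fin b) F}
    (ss : AE d (s * s') 1) (ss' : AE d (s' * s) 1) (tt : AE d (t * t') 1)
    (tt' : AE d (t' * t) 1) (yst : AE d (y * (s * t)) (s * t * y))
    (ht : AE c (t * x) (x * t)) (hy : AE c (y * x) (x * y)) :
    AE (3 * c + 8 * d) (y * (s * x * s')) (s * x * s' * y) := by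
  -- `y s ≈ s t y t'`
  have u1 : AE d (y * s) (y * s * (t * t')) := by
    have h := AE_left (y * s) (AE_symm tt)
    rw [mul_one] at h
    exact h
  have u2 : AE d (y * s * (t * t')) (s * t * y * t') := by
    have h := AE_right t' yst
    have e : y * s * (t * t') = y * (s * t) * t' := by noncomm_ring
    rw [e]
    exact h
  have u := AE_trans u1 u2
  -- `t' x ≈ x t'`
  have v1 : AE d (t' * x) (t' * x * (t * t')) := by
    have h := AE_left (t' * x) (AE_symm tt)
    rw [mul_one] at h
    exact h
  have v2 : AE c (t' * x * (t * t')) (t' * (t * x) * t') := by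
    have h := AE_mid t' t' (AE_symm ht)
    have e : t' * x * (t * t') = t' * (x * t) * t' := by noncomm_ring
    rw [e]
    exact h
  have v3 : AE d (t' * (t * x) * t') (x * t') := by
    have h := AE_right (x * t') tt'
    rw [one_mul] at h
    have e : t' * (t * x) * t' = t' * t * (x * t') := by noncomm_ring
    rw [e]
    exact h
  have v := AE_trans (AE_trans v1 v2) v3
  -- `t y t' s' ≈ s' y`
  have w1 : AE d (s' * y) (s' * y * (s * s')) := by
    have h := AE_left (s' * y) (AE_symm ss)
    rw [mul_one] at h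
    exact h
  have w2 : AE d (s' * y * (s * s')) (s' * y * s * (t * t') * s') := by
    have h := AE_mid (s' * y * s) s' (AE_symm tt)
    rw [mul_one] at h
    have e : s' * y * (s * s') = s' * y * s * s' := by noncomm_ring
    rw [e]
    exact h
  have w3 : AE d (s' * y * s * (t * t') * s') (s' * (s * t * y) * (t' * s')) := by
    have h := AE_mid s' (t' * s') yst
    have e : s' * y * s * (t * t') * s' = s' * (y * (s * t)) * (t' * s') := by noncomm_ring
    rw [e]
    exact h
  have w4 : AE d (s' * (s * t * y) * (t' * s')) (t * y * (t' * s')) := by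
    have h := AE_right (t * y * (t' * s')) ss'
    rw [one_mul] at h
    have e : s' * (s * t * y) * (t' * s') = s' * s * (t * y * (t' * s')) := by noncomm_ring
    rw [e]
    exact h
  have w := AE_symm (AE_trans (AE_trans (AE_trans w1 w2) w3) w4)
  have a1 : AE (d + d) (y * (s * x * s')) (s * t * y * t' * (x * s')) := by
    have h := AE_right (x * s') u
    have e : y * (s * x * s') = y * s * (x * s') := by noncomm_ring
    rw [e]
    exact h
  have a2 : AE (d + c + d) (s * t * y * t' * (x * s')) (s * t * y * (x * t') * s') := by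
    have h := AE_mid (s * t * y) s' v
    have e : s * t * y * t' * (x * s') = s * t * y * (t' * x) * s' := by noncomm_ring
    rw [e]
    exact h
  have a3 : AE c (s * t * y * (x * t') * s') (s * t * (x * y) * (t' * s')) := by
    have h := AE_mid (s * t) (t' * s') hy
    have e : s * t * y * (x * t') * s' = s * t * (y * x) * (t' * s') := by noncomm_ring
    rw [e]
    exact h
  have a4 : AE c (s * t * (x * y) * (t' * s')) (s * (x * t) * (y * (t' * s'))) := by
    have h := AE_mid s (y * (t' * s')) ht
    have e : s * t * (x * y) * (t' * s') = s * (t * x) * (y * (t' * s')) := by noncomm_ring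
    rw [e]
    exact h
  have a5 : AE (d + d + d + d) (s * (x * t) * (y * (t' * s'))) (s * x * s' * y) := by
    have h := AE_left (s * x) w
    have e1 : s * (x * t) * (y * (t' * s')) = s * x * (t * y * (t' * s')) := by noncomm_ring
    have e2 : s * x * s' * y = s * x * (s' * y) := by noncomm_ring
    rw [e1, e2]
    exact h
  exact AE_mono (AE_trans (AE_trans (AE_trans (AE_trans a1 a2) a3) a4) a5) (by omega)

theorem GR (F : Type u) [Field F] : ST_GR F := by
  refine ⟨5, ?_⟩
  intro b d s s' t t' h h' k e hR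
  have key : ∀ j : ℕ, ∃ c : ℕ, c + 4 * d ≤ 5 * 3 ^ j * d ∧
      AE c (t * ej s s' e (j + 1)) (ej s s' e (j + 1) * t) ∧
      AE c (k * ej s s' e (j + 1)) (ej s s' e (j + 1) * k) ∧
      AE c (h * ej s s' e (j + 1)) (ej s s' e (j + 1) * h) ∧
      AE c (e * ej s s' e (j + 1)) (ej s s' e (j + 1) * e) := by
    intro j
    induction j with
    | zero => exact ⟨d, by omega, hR.te, hR.ke, hR.he, hR.ee1⟩
    | succ j ih =>
      obtain ⟨c, hc, h1, h2, h3, h4⟩ := ih
      have hdef : ej s s' e (j + 1 + 1) = s * ej s s' e (j + 1) * s' := rfl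
      rw [hdef]
      refine ⟨3 * c + 8 * d, ?_, ?_, ?_, ?_, ?_⟩
      · have e3 : 5 * 3 ^ (j + 1) * d = 3 * (5 * 3 ^ j * d) := by ring
        rw [e3]
        omega
      · exact AE_mono (step_t hR.ss hR.ss' hR.ts h1 h2) (by omega)
      · exact step_y hR.ss hR.ss' hR.tt hR.tt' hR.kst h1 h2
      · exact step_y hR.ss hR.ss' hR.tt hR.tt' hR.hst h1 h3
      · exact step_y hR.ss hR.ss' hR.tt hR.tt' hR.est h1 h4
  intro j
  obtain ⟨c, hc, h1, h2, h3, h4⟩ := key j
  have hc' : c ≤ 5 * 3 ^ j * d := by omega
  exact ⟨AE_mono h1 hc', AE_mono h2 hc', AE_mono h3 hc', AE_mono h4 hc'⟩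

end Pool.Agent.Helper44.FR
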